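import Mathlib
import Pool.Agent.Lib.BD5.Attach

set_option autoImplicit false

open Set Topology Function

namespace Pool.Agent.Results.MP_1126ca_gt.FiniteDomains

/-- A chainable continuum: a nonempty compact connected metric space that has, for every `ε > 0`,
a continuous map onto the unit interval whose point inverses have diameter less than `ε`. -/
def Chainable (Y : Type) [MetricSpace Y] : Prop :=
  CompactSpace Y ∧ ConnectedSpace Y ∧ ∀ ε : ℝ, 0 < ε → ∃ g : Y → unitInterval, Continuous g ∧
    Surjective g ∧ ∀ t, Metric.diam (g ⁻¹' {t}) < ε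

/-- A plane set is weakly chainable if it is a continuous image of a chainable continuum. -/
def WeaklyChainable (S : Set ℂ) : Prop :=
  ∃ (Y : Type) (_ : MetricSpace Y), Chainable Y ∧ ∃ f : Y → ℂ, Continuous f ∧ range f = S

theorem chainable_of_maps {Y : Type} [MetricSpace Y] [CompactSpace Y] [ConnectedSpace Y]
    [Nontrivial Y] (h : ∀ ε : ℝ, 0 < ε → ∃ g : Y → ℝ, Continuous g ∧
      ∀ y y' : Y, g y = g y' → dist y y' < ε) : Chainable Y := by
  refine ⟨inferInstance, inferInstance, fun ε hε => ?_⟩
  obtain ⟨y₀, y₁, hy⟩ := exists_pair_ne Y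
  obtain ⟨g, hg, h1⟩ := h (min (ε / 2) (dist y₀ y₁)) (lt_min (half_pos hε) (dist_pos.2 hy))
  obtain ⟨a, -, ha⟩ := isCompact_univ.exists_isMinOn univ_nonempty hg.continuousOn
  obtain ⟨b, -, hb⟩ := isCompact_univ.exists_isMaxOn univ_nonempty hg.continuousOn
  have ha' : ∀ y, g a ≤ g y := fun y => ha (mem_univ y)
  have hb' : ∀ y, g y ≤ g b := fun y => hb (mem_univ y)
  have hab : 0 < g b - g a := by
    by_contra hc
    have e : g y₀ = g y₁ := by linarith [ha' y₀, ha' y₁, hb' y₀, hb' y₁]
    exact absurd (h1 _ _ e) (not_lt.2 (min_le_right _ _))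
  have hc : Continuous fun y => (g y - g a) / (g b - g a) := by fun_prop
  refine ⟨fun y => ⟨(g y - g a) / (g b - g a), div_nonneg (by linarith [ha' y]) hab.le,
    (div_le_one hab).2 (by linarith [hb' y])⟩, hc.subtype_mk _, fun t => ?_, fun t => ?_⟩
  · obtain ⟨y, hy⟩ := intermediate_value_univ a b hc (show (t : ℝ) ∈ Icc _ _ by
      simp [div_self hab.ne'])
    exact ⟨y, Subtype.ext hy⟩
  · refine lt_of_le_of_lt (Metric.diam_le_of_forall_dist_le (half_pos hε).le ?_) (half_lt_self hε)
    intro y hy y' hy'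
    have e : (g y - g a) / (g b - g a) = (g y' - g a) / (g b - g a) :=
      congrArg Subtype.val ((mem_singleton_iff.1 hy).trans (mem_singleton_iff.1 hy').symm)
    rw [div_left_inj' hab.ne', sub_left_inj] at e
    exact ((h1 _ _ e).trans_le (min_le_left _ _)).le

theorem of_wch {S : Set ℂ} (h : Pool.Agent.Lib.BD5.WCh S) : WeaklyChainable S := by
  obtain ⟨Y, _, h1, h2, h3, f, h4, h5⟩ := h
  rcases subsingleton_or_nontrivial Y with hY | hY
  · obtain ⟨y⟩ : Nonempty Y := inferInstance
    refine ⟨unitInterval, inferInstance, chainable_of_maps fun ε hε => ⟨Subtype.val,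
      continuous_subtype_val, fun y y' e => ?_⟩, fun _ => f y, continuous_const, ?_⟩
    · rw [Subtype.ext e, dist_self]
      exact hε
    · rw [← h5, range_const, range_eq_singleton_iff.2 fun z => congrArg f (Subsingleton.elim z y)]
  · exact ⟨Y, _, chainable_of_maps h3, f, h4, h5⟩

/-- An arcwise connected plane continuum with finitely many complementary domains is weakly
chainable. -/
theorem result : ∀ X : Set ℂ, IsCompact X → IsPathConnected X →
    {U : Set ℂ | ∃ u : ℂ, u ∉ X ∧ U = connectedComponentIn Xᶜ u}.Finite → WeaklyChainable X :=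
  fun _ hX hp hf => of_wch (Pool.Agent.Lib.BD5.wch_of_finite hX hp hf)

end Pool.Agent.Results.MP_1126ca_gt.FiniteDomains
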