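import Mathlib
import Pool.Agent.Lib.MP_1126ca_gt.Main

set_option autoImplicit false

open Set Topology Function

namespace Pool.Agent.Results.MP_1126ca_gt.PlanarDendroid

/-- A continuum is a nonempty compact connected metric space. -/
def IsContinuum (X : Type*) [MetricSpace X] : Prop := CompactSpace X ∧ ConnectedSpace X

/-- Any two distinct points are the end points of an arc. -/
def ArcwiseConnected (X : Type*) [MetricSpace X] : Prop :=
  ∀ x y : X, x ≠ y → ∃ α : unitInterval → X, IsEmbedding α ∧ α 0 = x ∧ α 1 = y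

/-- The intersection of any two subcontinua is connected or empty. -/
def HereditarilyUnicoherent (X : Type*) [MetricSpace X] : Prop :=
  ∀ A B : Set X, IsCompact A → IsConnected A → IsCompact B → IsConnected B →
    IsPreconnected (A ∩ B)

def IsDendroid (X : Type*) [MetricSpace X] : Prop :=
  IsContinuum X ∧ ArcwiseConnected X ∧ HereditarilyUnicoherent X

def Planar (X : Type*) [MetricSpace X] : Prop :=
  ∃ e : X → EuclideanSpace ℝ (Fin 2), IsEmbedding e

/-- For every `ε > 0` there is a continuous map onto the unit interval whose point inverses have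
diameter less than `ε`. -/
def Chainable (Y : Type*) [MetricSpace Y] : Prop :=
  IsContinuum Y ∧ ∀ ε : ℝ, 0 < ε → ∃ g : Y → unitInterval, Continuous g ∧ Surjective g ∧
    ∀ t, Metric.diam (g ⁻¹' {t}) < ε

def WeaklyChainable (X : Type*) [MetricSpace X] : Prop :=
  ∃ (Y : Type) (_ : MetricSpace Y), Chainable Y ∧ ∃ f : Y → X, Continuous f ∧ Surjective f

theorem chainable_of_maps {Y : Type} [MetricSpace Y] [CompactSpace Y] [ConnectedSpace Y]
    [Nontrivial Y] (h : ∀ ε : ℝ, 0 < ε → ∃ g : Y → ℝ, Continuous g ∧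
      ∀ y y' : Y, g y = g y' → dist y y' < ε) : Chainable Y := by
  refine ⟨⟨inferInstance, inferInstance⟩, fun ε hε => ?_⟩
  obtain ⟨y₀, y₁, hy⟩ := exists_pair_ne Y
  obtain ⟨g, hg, h1⟩ := h (min (ε / 2) (dist y₀ y₁)) (lt_min (half_pos hε) (dist_pos.2 hy))
  obtain ⟨a, -, ha⟩ := isCompact_univ.exists_isMinOn univ_nonempty hg.continuousOn
  obtain ⟨b, -, hb⟩ := isCompact_univ.exists_isMaxOn univ_nonempty hg.continuousOn
  have ha' : ∀ y, g a ≤ g y := fun y => ha (mem_univ y)
  have hb' : ∀ y, g y ≤ g b := fun y => hb (mem_univ y)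
  have hab : 0 < g b - g a := by
    by_contra hc
    have e : g y₀ = g y₁ := by linarith [ha' y₀, ha' y₁, hb' y₀, hb' y₁]
    exact absurd (h1 _ _ e) (not_lt.2 (min_le_right _ _))
  have hc : Continuous fun y => (g y - g a) / (g b - g a) := by fun_prop
  refine ⟨fun y => ⟨(g y - g a) / (g b - g a), div_nonneg (by linarith [ha' y]) hab.le,
    (div_le_one hab).2 (by linarith [hb' y])⟩, hc.subtype_mk _, fun t => ?_, fun t => ?_⟩
  · obtain ⟨y, hy⟩ := intermediate_value_univ a b hc (show (t : ℝ) ∈ Icc _ _ by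
      simp [div_self hab.ne'])
    exact ⟨y, Subtype.ext hy⟩
  · refine lt_of_le_of_lt (Metric.diam_le_of_forall_dist_le (half_pos hε).le ?_) (half_lt_self hε)
    intro y hy y' hy'
    have e : (g y - g a) / (g b - g a) = (g y' - g a) / (g b - g a) :=
      congrArg Subtype.val ((mem_singleton_iff.1 hy).trans (mem_singleton_iff.1 hy').symm)
    rw [div_left_inj' hab.ne', sub_left_inj] at e
    exact ((h1 _ _ e).trans_le (min_le_left _ _)).le

universe u

/-- Every planar dendroid is weakly chainable. -/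
theorem result : ∀ (X : Type u) [MetricSpace X], IsDendroid X → Planar X → WeaklyChainable X := by
  rintro X _ ⟨⟨h1, h2⟩, h3, h4⟩ ⟨e₀, he₀⟩
  rcases subsingleton_or_nontrivial X with hX | hX
  · obtain ⟨x⟩ : Nonempty X := inferInstance
    refine ⟨unitInterval, inferInstance, chainable_of_maps fun ε hε => ⟨Subtype.val,
      continuous_subtype_val, fun y y' e => ?_⟩, fun _ => x, continuous_const,
      fun y => ⟨0, Subsingleton.elim _ _⟩⟩
    rw [Subtype.ext e, dist_self]
    exact hε
  let φ : EuclideanSpace ℝ (Fin 2) ≃L[ℝ] ℝ × ℝ :=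
    (EuclideanSpace.equiv (Fin 2) ℝ).trans (ContinuousLinearEquiv.finTwoArrow ℝ ℝ)
  have he : IsEmbedding (φ ∘ e₀) := φ.toHomeomorph.isEmbedding.comp he₀
  set e : X → ℝ × ℝ := φ ∘ e₀
  have hpath : PathConnectedSpace X := ⟨inferInstance, fun x y => by
    by_cases hxy : x = y
    · exact hxy ▸ Joined.refl x
    · obtain ⟨α, a1, a2, a3⟩ := h3 x y hxy
      exact ⟨⟨⟨α, a1.continuous⟩, a2, a3⟩⟩⟩
  have pre : ∀ A : Set (ℝ × ℝ), A ⊆ range e → IsCompact A → IsConnected A →
      IsCompact (e ⁻¹' A) ∧ IsConnected (e ⁻¹' A) := fun A a1 a2 a3 =>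
    ⟨(a2.isClosed.preimage he.continuous).isCompact, a3.nonempty.preimage' a1,
      he.isInducing.isPreconnected_image.1 (by
        rw [image_preimage_eq_of_subset a1]
        exact a3.isPreconnected)⟩
  obtain ⟨Y, _, b1, b2, b3, f, b4, b5⟩ := Pool.Agent.Lib.MP_1126ca_gt.weakly_chainable (range e)
    (isCompact_range he.continuous) (isPathConnected_range he.continuous)
    fun A B a1 a2 a3 a4 a5 a6 => by
      have := (h4 _ _ (pre A a1 a3 a4).1 (pre A a1 a3 a4).2 (pre B a2 a5 a6).1
        (pre B a2 a5 a6).2).image e he.continuous.continuousOn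
      rwa [← preimage_inter, image_preimage_eq_of_subset (inter_subset_left.trans a1)] at this
  have hf : ∀ y, ∃ x, e x = f y := fun y => (b5 ▸ mem_range_self y : f y ∈ range e)
  choose f' hf' using hf
  have hs : Surjective f' := fun x => by
    obtain ⟨y, hy⟩ : e x ∈ range f := b5.symm ▸ mem_range_self x
    exact ⟨y, he.injective ((hf' y).trans hy)⟩
  have := hs.nontrivial
  exact ⟨Y, _, chainable_of_maps b3, f', he.continuous_iff.2 (b4.congr fun y => (hf' y).symm), hs⟩

end Pool.Agent.Results.MP_1126ca_gt.PlanarDendroid
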